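import Pool.Agent.N984.DI.Stm
import Pool.Agent.TH461.SST.CB

set_option autoImplicit false

open Matrix Finset
open scoped ComplexOrder

namespace Pool.Agent.N335.DI

open Pool.Agent.N984.DI

theorem mul' {n k : ℕ} (A B : Matrix (Fin n) (Fin n) ℂ) :
    cpd k (A * B) = cpd k A * cpd k B := by
  ext I J
  have h := Pool.Agent.TH461.SST.CB.cbR k n (A.submatrix (fun i : Fin k => I.1.orderEmbOfFin I.2 i) id)
    (B.submatrix id (fun j : Fin k => J.1.orderEmbOfFin J.2 j))
  have e1 : (A * B).submatrix (fun i : Fin k => I.1.orderEmbOfFin I.2 i)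
      (fun j : Fin k => J.1.orderEmbOfFin J.2 j) =
      A.submatrix (fun i : Fin k => I.1.orderEmbOfFin I.2 i) id *
        B.submatrix id (fun j : Fin k => J.1.orderEmbOfFin J.2 j) := by
    ext a b
    simp [Matrix.mul_apply]
  rw [Matrix.mul_apply]
  show ((A * B).submatrix (fun i : Fin k => I.1.orderEmbOfFin I.2 i)
    (fun j : Fin k => J.1.orderEmbOfFin J.2 j)).det = _
  rw [e1, h]
  rfl

theorem conj' {n k : ℕ} (A : Matrix (Fin n) (Fin n) ℂ) : cpd k Aᴴ = (cpd k A)ᴴ := by
  ext I J
  rw [Matrix.conjTranspose_apply]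
  unfold cpd
  rw [← Matrix.det_conjTranspose]
  rfl

theorem diag' {n k : ℕ} (x : Fin n → ℝ) : cpd k (Matrix.diagonal (fun i => (x i : ℂ))) =
    Matrix.diagonal (fun I : Ix n k => ((∏ i ∈ I.1, x i : ℝ) : ℂ)) := by
  ext I J
  by_cases h : I = J
  · subst h
    rw [Matrix.diagonal_apply_eq]
    simp only [cpd]
    rw [Matrix.submatrix_diagonal _ _ (I.1.orderEmbOfFin I.2).injective, Matrix.det_diagonal,
      Complex.ofReal_prod]
    conv_rhs => rw [← Finset.map_orderEmbOfFin_univ I.1 I.2]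
    rw [Finset.prod_map]
    rfl
  · rw [Matrix.diagonal_apply_ne _ h]
    simp only [cpd]
    have : ∃ i ∈ I.1, i ∉ J.1 := by
      by_contra hcon
      push Not at hcon
      apply h
      apply Subtype.ext
      exact Finset.eq_of_subset_of_card_le hcon (by rw [I.2, J.2])
    obtain ⟨i, hi, hiJ⟩ := this
    have h2 : i ∈ Set.range (I.1.orderEmbOfFin I.2) := by
      rw [Finset.range_orderEmbOfFin]
      exact hi
    obtain ⟨a, ha⟩ := h2
    apply Matrix.det_eq_zero_of_row_eq_zero a
    intro j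
    rw [Matrix.submatrix_apply, ha]
    apply Matrix.diagonal_apply_ne
    intro h3
    apply hiJ
    rw [h3]
    exact Finset.orderEmbOfFin_mem J.1 J.2 j

theorem one' {n k : ℕ} : cpd k (1 : Matrix (Fin n) (Fin n) ℂ) = 1 := by
  have h := diag' (k := k) (fun _ : Fin n => (1 : ℝ))
  simp only [Complex.ofReal_one, Finset.prod_const_one] at h
  rw [Matrix.diagonal_one] at h
  rw [h]
  exact Matrix.diagonal_one

theorem t_CPM : CPM := by
  intro n k
  refine ⟨fun A B => mul' A B, fun A => conj' A, fun U hU => ?_, fun x => diag' x⟩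
  rw [Matrix.mem_unitaryGroup_iff] at hU ⊢
  rw [Matrix.star_eq_conjTranspose] at hU ⊢
  rw [← conj', ← mul', hU, one']

end Pool.Agent.N335.DI
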